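import Mathlib

set_option autoImplicit false

open SimpleGraph

namespace Pool.Agent.Results.MP_fc8d4d_co.Full

/-- Colour code of `v`: distances to the colour classes. -/
noncomputable def code {V : Type} (G : SimpleGraph V) {k : ℕ} (c : V → Fin k) (v : V) :
    Fin k → ℕ∞ := fun i => ⨅ (u : V) (_ : c u = i), G.edist v u

/-- Locating chromatic number: least `k` with a proper colouring with `k` (nonempty) classes whose
colour codes are pairwise distinct. -/
noncomputable def chiL {V : Type} (G : SimpleGraph V) : ℕ∞ :=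
  ⨅ (k : ℕ) (_ : ∃ c : G.Coloring (Fin k), Function.Surjective c ∧
    Function.Injective (code G c)), (k : ℕ∞)

lemma path_le {n : ℕ} : ∀ (t : ℕ) (i j : Fin n), j.1 = i.1 + t → (pathGraph n).edist i j ≤ t
  | 0, i, j, h => by simp [Fin.ext (show i.1 = j.1 by omega)]
  | t + 1, i, j, h => by
    have := (pathGraph n).edist_triangle (u := i) (v := ⟨i + t, by omega⟩) (w := j)
    rw [(edist_eq_one_iff_adj (u := ⟨i + t, by omega⟩) (v := j)).2
      (pathGraph_adj.2 (Or.inl h.symm))] at this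
    exact this.trans (by push_cast; gcongr; exact path_le t _ _ rfl)

def dd {n : ℕ} (i j : Fin n) : ℕ := i - j + (j - i)

lemma dd_mod {n : ℕ} (i j : Fin n) : dd i j % 2 = (i + j) % 2 := by unfold dd; omega

lemma dd_lt {n : ℕ} (i j : Fin n) : dd i j < n := by unfold dd; omega

lemma dd_zero {n : ℕ} (i : Fin (n + 3)) : dd i 0 = i := by simp [dd]

lemma dd_last {n : ℕ} (i : Fin (n + 3)) : dd i (.last (n + 2)) = n + 2 - i := by
  simp only [dd, Fin.val_last]; omega

lemma path_dist {n : ℕ} (i j : Fin n) : (pathGraph n).edist i j = dd i j := by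
  unfold dd
  refine le_antisymm ?_ (le_sInf ?_)
  · rcases le_total i.1 j.1 with h | h
    · exact path_le _ _ _ (by omega)
    · rw [edist_comm]; exact path_le _ _ _ (by omega)
  · rintro _ ⟨w, rfl⟩
    simp only [Nat.cast_le]
    induction w with
    | nil => simp
    | cons h _ ih => have := pathGraph_adj.1 h; simp only [Walk.length_cons]; omega

abbrev X (n : ℕ) := Fin n × Fin n × Fin n × Fin n × Fin n × Fin n

def Gr (n : ℕ) : SimpleGraph (X n) :=
  pathGraph n □ (pathGraph n □ (pathGraph n □ (pathGraph n □ (pathGraph n □ pathGraph n))))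

def ds {n : ℕ} (x y : X n) : ℕ := dd x.1 y.1 + dd x.2.1 y.2.1 + dd x.2.2.1 y.2.2.1 +
  dd x.2.2.2.1 y.2.2.2.1 + dd x.2.2.2.2.1 y.2.2.2.2.1 + dd x.2.2.2.2.2 y.2.2.2.2.2

lemma ds_lt {n : ℕ} (x y : X n) : ds x y < 6 * n := by
  have := dd_lt x.1 y.1; have := dd_lt x.2.1 y.2.1; have := dd_lt x.2.2.1 y.2.2.1
  have := dd_lt x.2.2.2.1 y.2.2.2.1; have := dd_lt x.2.2.2.2.1 y.2.2.2.2.1
  have := dd_lt x.2.2.2.2.2 y.2.2.2.2.2
  unfold ds; omega

lemma Gr_dist {n : ℕ} (x y : X n) : (Gr n).edist x y = ds x y := by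
  simp only [Gr, edist_boxProd, path_dist, ds, ← Nat.cast_add, add_assoc]

def lm (m : ℕ) : Fin 6 → X (m + 3) :=
  ![(0, 0, 0, 0, 0, 0), (.last _, 0, 0, 0, 0, 0), (0, .last _, 0, 0, 0, 0),
    (0, 0, .last _, 0, 0, 0), (0, 0, 0, .last _, 0, 0), (0, 0, 0, 0, .last _, 0)]

lemma lm_inj (m : ℕ) : Function.Injective (lm m) := fun i j h => by
  fin_cases i <;> fin_cases j <;> simp [lm, Fin.ext_iff] at h ⊢

open Classical in
noncomputable def col (m : ℕ) (x : X (m + 3)) : Fin 8 :=
  if h : ∃ i, lm m i = x then h.choose.castAdd 2 else ⟨6 + ds x (lm m 0) % 2, by omega⟩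

lemma col_iff {m : ℕ} {x : X (m + 3)} {i : Fin 6} : col m x = i.castAdd 2 ↔ x = lm m i := by
  unfold col
  split_ifs with h
  · rw [Fin.castAdd_inj]
    exact ⟨fun e => e ▸ h.choose_spec.symm, fun e => lm_inj m (h.choose_spec.trans e)⟩
  · simp only [Fin.ext_iff, Fin.val_castAdd]
    exact ⟨fun e => by omega, fun e => absurd ⟨i, e.symm⟩ h⟩

lemma upper (m : ℕ) : chiL (Gr (m + 3)) ≤ 8 := by
  refine iInf₂_le_of_le 8 ⟨Coloring.mk (col m) fun {x y} h e => ?_, fun i => ?_, fun x y h => ?_⟩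
    le_rfl
  · by_cases hx : ∃ i, lm m i = x
    · obtain ⟨i, rfl⟩ := hx
      exact h.ne (col_iff.1 (e.symm.trans (col_iff.2 rfl))).symm
    by_cases hy : ∃ i, lm m i = y
    · obtain ⟨i, rfl⟩ := hy
      exact h.ne (col_iff.1 (e.trans (col_iff.2 rfl)))
    have := edist_eq_one_iff_adj.2 h
    rw [Gr_dist, Nat.cast_eq_one] at this
    rw [col, col, dif_neg hx, dif_neg hy] at e
    have := dd_mod x.1 y.1; have := dd_mod x.2.1 y.2.1; have := dd_mod x.2.2.1 y.2.2.1
    have := dd_mod x.2.2.2.1 y.2.2.2.1; have := dd_mod x.2.2.2.2.1 y.2.2.2.2.1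
    have := dd_mod x.2.2.2.2.2 y.2.2.2.2.2
    simp [ds, lm, dd_zero] at e
    unfold ds at *
    omega
  · by_cases hi : i.1 < 6
    · exact ⟨lm m ⟨i, hi⟩, col_iff.2 rfl⟩
    · have a : ∀ t : Fin (m + 3), t ≠ 0 → ¬ ∃ i, lm m i = (0, 0, 0, 0, 0, t) := by
        rintro t ht ⟨i, h⟩
        fin_cases i <;> simp [lm, ht.symm] at h
      by_cases h6 : i = 6
      · exact ⟨(0, 0, 0, 0, 0, ⟨2, by omega⟩), by
          change col m (0, 0, 0, 0, 0, ⟨2, by omega⟩) = i
          rw [col, dif_neg (a _ (by simp [Fin.ext_iff])), h6]; simp [ds, lm, Fin.ext_iff, dd_zero]⟩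
      · exact ⟨(0, 0, 0, 0, 0, 1), by
          change col m (0, 0, 0, 0, 0, 1) = i
          rw [col, dif_neg (a _ (by simp))]; simp [ds, lm, Fin.ext_iff, dd_zero] at h6 ⊢; omega⟩
  · have a : ∀ i, ds x (lm m i) = ds y (lm m i) := fun i => by
      have := congrFun h (i.castAdd 2)
      change (⨅ (u) (_ : col m u = _), _) = ⨅ (u) (_ : col m u = _), _ at this
      simpa [col_iff, Gr_dist] using this
    have a0 := a 0; have a1 := a 1; have a2 := a 2; have a3 := a 3; have a4 := a 4; have a5 := a 5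
    obtain ⟨x1, x2, x3, x4, x5, x6⟩ := x
    obtain ⟨y1, y2, y3, y4, y5, y6⟩ := y
    simp [ds, lm, Fin.ext_iff, dd_zero, dd_last] at a0 a1 a2 a3 a4 a5 ⊢
    omega

lemma lower (n : ℕ) (hn : 12 ^ 11 < n) : 12 ≤ chiL (Gr n □ Gr n) := by
  refine le_iInf₂ fun k ⟨c, hs, hi⟩ => ?_
  by_contra hk
  have hk : k ≤ 11 := by
    have : k < 12 := by exact_mod_cast not_le.1 hk
    omega
  have b : ∀ v i, code _ c v i < (12 * n : ℕ) := fun v i => by
    obtain ⟨u, hu⟩ := hs i
    refine (iInf₂_le u hu).trans_lt ?_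
    rw [edist_boxProd, Gr_dist, Gr_dist, ← Nat.cast_add, Nat.cast_lt]
    have := ds_lt v.1 u.1; have := ds_lt v.2 u.2
    omega
  have := Fintype.card_le_of_injective (fun v i => (⟨(code _ c v i).toNat, by
    have := b v i
    rw [← ENat.natCast_toNat (ne_top_of_lt this)] at this
    exact_mod_cast this⟩ : Fin (12 * n))) fun v w h => hi (funext fun i => by
      rw [← ENat.natCast_toNat (ne_top_of_lt (b v i)), ← ENat.natCast_toNat (ne_top_of_lt (b w i))]
      exact congrArg (fun z : Fin (12 * n) => (z.1 : ℕ∞)) (congrFun h i))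
  simp only [Fintype.card_prod, Fintype.card_fin, Fintype.card_pi, Finset.prod_const,
    Finset.card_univ] at this
  have h1 : (12 * n) ^ k ≤ (12 * n) ^ 11 := Nat.pow_le_pow_right (by omega) hk
  have h2 : 12 ^ 11 * n ^ 11 < n * n ^ 11 := Nat.mul_lt_mul_of_pos_right hn (by positivity)
  rw [mul_pow 12 n 11] at h1
  exact absurd (this.trans h1) (not_le.2 (h2.trans_eq (by ring)))

theorem result : ∃ (V W : Type) (_ : Fintype V) (_ : Fintype W) (G : SimpleGraph V)
    (H : SimpleGraph W), G.Connected ∧ H.Connected ∧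
      max (chiL G) (chiL H) + 3 < chiL (G □ H) := by
  have c := pathGraph_connected (12 ^ 11 + 2)
  have c' : (Gr (12 ^ 11 + 3)).Connected := c.boxProd (c.boxProd (c.boxProd (c.boxProd (c.boxProd c))))
  refine ⟨_, _, inferInstance, inferInstance, _, _, c', c', ?_⟩
  refine lt_of_lt_of_le ?_ (lower _ (by omega))
  rw [max_self]
  exact (add_le_add_left (upper _) 3).trans_lt (by norm_num)

end Pool.Agent.Results.MP_fc8d4d_co.Full
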